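import Pool.Agent.Helper77.SO.St
import Pool.Agent.Helper36.OF4.P1

/-! # Project SO, module PAR: parity of cuts -/

set_option autoImplicit false

namespace Pool.Agent.Helper29.SO.PAR

open Equiv Equiv.Perm Pool.Agent.Helper35.PM Pool.Agent.Helper77.HY Pool.Agent.Helper77.OF4
  Pool.Agent.Helper77.SO

/-- an odd invariant set contains a point of odd period -/
theorem odd_cycle {D : Type} [Finite D] (f : Perm D) :
    ∀ (n : ℕ) (X : Set D), X.ncard = n → (∀ d ∈ X, f d ∈ X) → Odd n →
      ∃ a ∈ X, Odd (Function.minimalPeriod f a) := by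
  intro n
  induction n using Nat.strong_induction_on with
  | _ n ih =>
    intro X hn hX ho
    have hne : X.Nonempty := by
      rw [← Set.ncard_pos (Set.toFinite _), hn]
      exact ho.pos
    obtain ⟨a, ha⟩ := hne
    by_cases hodd : Odd (Function.minimalPeriod f a)
    · exact ⟨a, ha, hodd⟩
    let C : Set D := {e | f.SameCycle a e}
    have hC : C.ncard = Function.minimalPeriod f a :=
      (Pool.Agent.Helper36.OF4.P1.mp_eq f a).symm
    have hpow : ∀ k : ℕ, (f ^ k) a ∈ X := by
      intro k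
      induction k with
      | zero => exact ha
      | succ k ihk =>
        rw [pow_succ', Perm.mul_apply]
        exact hX _ ihk
    have hCX : C ⊆ X := by
      intro e he
      obtain ⟨k, hk⟩ := SameCycle.exists_nat_pow_eq (he : f.SameCycle a e)
      rw [← hk]
      exact hpow k
    have hdiff : (X \ C).ncard + C.ncard = X.ncard := Set.ncard_sdiff_add_ncard_of_subset hCX
    have haC : a ∈ C := SameCycle.refl _ _
    have hCpos : 0 < C.ncard := (Set.ncard_pos (Set.toFinite _)).2 ⟨a, haC⟩
    rw [Nat.not_odd_iff_even, ← hC] at hodd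
    have ho2 : Odd (X \ C).ncard := by
      by_contra h
      rw [Nat.not_odd_iff_even] at h
      have := h.add hodd
      rw [hdiff, hn] at this
      exact (Nat.not_even_iff_odd.2 ho) this
    obtain ⟨b, hb, hb2⟩ := ih (X \ C).ncard (by omega) (X \ C) rfl (by
      rintro d ⟨hd1, hd2⟩
      refine ⟨hX d hd1, fun h => hd2 ?_⟩
      exact (sameCycle_apply_right.1 (h : f.SameCycle a (f d)) : f.SameCycle a d)) ho2
    exact ⟨b, hb.1, hb2⟩

/-- an invariant set of a fixed-point free involution is even -/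
theorem even_inv {D : Type} [Finite D] (ι : D → D) (hi : Function.Involutive ι)
    (hf : ∀ d, ι d ≠ d) (X : Set D) (hX : ∀ d ∈ X, ι d ∈ X) : Even X.ncard := by
  classical
  have : Fintype D := Fintype.ofFinite D
  have h : ∑ x ∈ X.toFinset, (1 : ZMod 2) = 0 := by
    refine Finset.sum_involution (fun a _ => ι a) ?_ ?_ ?_ ?_
    · intro a _
      decide
    · intro a _ _
      exact hf a
    · intro a ha
      rw [Set.mem_toFinset] at ha ⊢
      exact hX a ha
    · intro a _
      exact hi a
  rw [Finset.sum_const, nsmul_eq_mul, mul_one, ZMod.natCast_eq_zero_iff_even] at h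
  rw [Set.ncard_eq_toFinset_card']
  exact h

theorem two (z : ZMod 2) : z = 0 ∨ z = 1 := by
  revert z
  decide

theorem main : StPar := by
  classical
  intro V D _ M p hp
  let A : Set D := {d | p d = 1 ∧ p (M.ι d) = 0}
  let B : Set D := {d | p d = 0 ∧ p (M.ι d) = 1}
  let C : Set D := {d | p d = 1 ∧ p (M.ι d) = 1}
  have h01 : (0 : ZMod 2) ≠ 1 := by decide
  have hAB : Disjoint A B := by
    rw [Set.disjoint_left]
    rintro d ⟨h1, _⟩ ⟨h2, _⟩
    exact h01 (h2.symm.trans h1)
  have hAC : Disjoint A C := by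
    rw [Set.disjoint_left]
    rintro d ⟨_, h1⟩ ⟨_, h2⟩
    exact h01 (h1.symm.trans h2)
  have hcut : {d | p (M.ι d) ≠ p d} = A ∪ B := by
    ext d
    show p (M.ι d) ≠ p d ↔ (p d = 1 ∧ p (M.ι d) = 0) ∨ (p d = 0 ∧ p (M.ι d) = 1)
    rcases two (p d) with h | h <;> rcases two (p (M.ι d)) with h' | h' <;> simp [h, h']
  have hone : {d | p d = 1} = A ∪ C := by
    ext d
    show p d = 1 ↔ (p d = 1 ∧ p (M.ι d) = 0) ∨ (p d = 1 ∧ p (M.ι d) = 1)
    rcases two (p d) with h | h <;> rcases two (p (M.ι d)) with h' | h' <;> simp [h, h']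
  have hBA : B = M.ι '' A := by
    ext d
    constructor
    · rintro ⟨h1, h2⟩
      exact ⟨M.ι d, ⟨h2, by rw [M.inv]; exact h1⟩, M.inv d⟩
    · rintro ⟨e, ⟨h1, h2⟩, rfl⟩
      exact ⟨h2, by rw [M.inv]; exact h1⟩
  have hcB : B.ncard = A.ncard := by
    rw [hBA, Set.ncard_image_of_injective _ M.inv.injective]
  have hcC : Even C.ncard := even_inv M.ι M.inv M.nofix C (by
    rintro d ⟨h1, h2⟩
    exact ⟨h2, by rw [M.inv]; exact h1⟩)
  have hn1 : {d | p d = 1}.ncard = A.ncard + C.ncard := by
    rw [hone, Set.ncard_union_eq hAC (Set.toFinite _) (Set.toFinite _)]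
  have hiff : Odd A.ncard ↔ Odd {d | p d = 1}.ncard := by
    rw [hn1, Nat.odd_add]
    exact ⟨fun h => ⟨fun _ => hcC, fun _ => h⟩, fun h => h.2 hcC⟩
  refine ⟨A.ncard, ?_, hiff, ?_⟩
  · show {d | p (M.ι d) ≠ p d}.ncard = 2 * A.ncard
    rw [hcut, Set.ncard_union_eq hAB (Set.toFinite _) (Set.toFinite _), hcB, two_mul]
  · intro hk
    have h1 : Odd {d | p d = 1}.ncard := hiff.1 hk
    have hall : Even (Set.univ : Set D).ncard :=
      even_inv M.ι M.inv M.nofix Set.univ (fun _ _ => Set.mem_univ _)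
    have hsum : {d | p d = 1}.ncard + {d | p d = 0}.ncard = (Set.univ : Set D).ncard := by
      rw [← Set.ncard_union_eq ?_ (Set.toFinite _) (Set.toFinite _)]
      · congr 1
        ext d
        rcases two (p d) with h | h <;> simp [h]
      · rw [Set.disjoint_left]
        intro d h1 h2
        exact h01 ((h2 : p d = 0).symm.trans h1)
    have h0 : Odd {d | p d = 0}.ncard := by
      by_contra h
      rw [Nat.not_odd_iff_even] at h
      rw [← hsum, Nat.even_add] at hall
      exact (Nat.not_even_iff_odd.2 h1) (hall.2 h)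
    obtain ⟨a, ha, ha2⟩ := odd_cycle M.φ _ {d | p d = 1} rfl
      (fun d hd => (hp d).trans hd) h1
    obtain ⟨b, hb, hb2⟩ := odd_cycle M.φ _ {d | p d = 0} rfl
      (fun d hd => (hp d).trans hd) h0
    exact ⟨a, b, ha2, hb2, fun h => h01 ((hb : p b = 0).symm.trans (h.symm.trans ha))⟩

end Pool.Agent.Helper29.SO.PAR
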